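import Mathlib

/-!
Cup stacking on a graph: definitions, and the calculus of sets of cups that can be brought to a vertex.
-/

namespace Pool.Agent.X235.Cup

open Finset

/-- A legal move of cup stacking on `G`: all cups of the vertex `x` (at least one) are put on a
vertex `y` different from `x` which carries at least one cup and whose distance from `x` is exactly
the number of cups on `x`. -/
def Move {V : Type} [DecidableEq V] (G : SimpleGraph V) (c c' : V → ℕ) : Prop :=
  ∃ x y, x ≠ y ∧ 1 ≤ c x ∧ 1 ≤ c y ∧ G.dist x y = c x ∧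
    c' = fun v => if v = x then 0 else if v = y then c y + c x else c v

/-- `G` is `t`-stackable: starting with one cup on each vertex, some finite sequence of moves puts
all cups on `t`. -/
def StackableTo {V : Type} [DecidableEq V] (G : SimpleGraph V) (t : V) : Prop :=
  ∃ c : V → ℕ, Relation.ReflTransGen (Move G) (fun _ => 1) c ∧ ∀ v, v ≠ t → c v = 0

/-- `G` is stackable: it is `t`-stackable for every vertex `t`. -/
def Stackable {V : Type} [DecidableEq V] (G : SimpleGraph V) : Prop :=
  ∀ t, StackableTo G t

/-- `Br D S t`: the single cups on the vertices of `S` can be brought to `t`, the distances being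
given by `D`. -/
inductive Br (D : ℕ → ℕ → ℕ) : Finset ℕ → ℕ → Prop
  | empty (t : ℕ) : Br D ∅ t
  | union {S T : Finset ℕ} {t : ℕ} : Br D S t → Br D T t → Disjoint S T → Br D (S ∪ T) t
  | push {T : Finset ℕ} {v t : ℕ} : Br D T v → v ∉ T → t ∉ T → v ≠ t → D v t = T.card + 1 →
      Br D (insert v T) t

theorem Br.congr {D : ℕ → ℕ → ℕ} {S S' : Finset ℕ} {t : ℕ} (h : Br D S t) (e : S = S') :
    Br D S' t := e ▸ h

theorem Br.not_mem {D : ℕ → ℕ → ℕ} {S : Finset ℕ} {t : ℕ} (h : Br D S t) : t ∉ S := by
  induction h with
  | empty t => simp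
  | union h1 h2 hd i1 i2 => simp [i1, i2]
  | push h1 hv ht hne hD i1 =>
    rw [mem_insert]
    rintro (h | h)
    · exact hne h.symm
    · exact ht h

theorem Br.sound {N : ℕ} {G : SimpleGraph (Fin N)} {D : ℕ → ℕ → ℕ}
    (hD : ∀ x y : Fin N, G.dist x y = D x y) {S : Finset ℕ} {t : ℕ} (h : Br D S t) :
    (∀ x ∈ S, x < N) → ∀ (ht : t < N) (c : Fin N → ℕ), (∀ x : Fin N, (x : ℕ) ∈ S → c x = 1) →
      1 ≤ c ⟨t, ht⟩ →
      Relation.ReflTransGen (Move G) c
        (fun x => if (x : ℕ) ∈ S then 0 else if (x : ℕ) = t then c x + S.card else c x) := by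
  induction h with
  | empty t =>
    intro _ ht c _ _
    have : (fun x : Fin N => if (x : ℕ) ∈ (∅ : Finset ℕ) then 0 else
        if (x : ℕ) = t then c x + (∅ : Finset ℕ).card else c x) = c := by
      funext x; simp
    rw [this]
  | @union S T t h1 h2 hd i1 i2 =>
    intro hS ht c hc h1t
    have a1 := i1 (fun x hx => hS x (mem_union_left _ hx)) ht c
      (fun x hx => hc x (mem_union_left _ hx)) h1t
    have n1 := h1.not_mem
    have n2 := h2.not_mem
    have hdisj : ∀ x, x ∈ S → x ∈ T → False := fun x hx hy => (Finset.disjoint_left.1 hd) hx hy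
    have a2 := i2 (fun x hx => hS x (mem_union_right _ hx)) ht
      (fun x => if (x : ℕ) ∈ S then 0 else if (x : ℕ) = t then c x + S.card else c x)
      (by
        intro x hx
        have : (x : ℕ) ∉ S := fun h => hdisj _ h hx
        have h' : (x : ℕ) ≠ t := fun h => n2 (h ▸ hx)
        simp only [this, h', if_false]
        exact hc x (mem_union_right _ hx))
      (by
        simp only [n1, if_false, if_true]
        omega)
    refine (a1.trans a2).trans ?_
    have : (fun x : Fin N => if (x : ℕ) ∈ T then 0 else
        if (x : ℕ) = t then (if (x : ℕ) ∈ S then 0 else if (x : ℕ) = t then c x + S.card else c x)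
          + T.card else (if (x : ℕ) ∈ S then 0 else if (x : ℕ) = t then c x + S.card else c x))
        = (fun x : Fin N => if (x : ℕ) ∈ S ∪ T then 0 else
        if (x : ℕ) = t then c x + (S ∪ T).card else c x) := by
      funext x
      rw [card_union_of_disjoint hd]
      by_cases hS : (x : ℕ) ∈ S <;> by_cases hT : (x : ℕ) ∈ T <;> by_cases ht' : (x : ℕ) = t <;>
        simp_all
      omega
    rw [this]
  | @push T v t h1 hv ht hne hDv i1 =>
    intro hS htN c hc h1t
    have hvN : v < N := hS v (mem_insert_self _ _)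
    have cv : c ⟨v, hvN⟩ = 1 := hc ⟨v, hvN⟩ (mem_insert_self _ _)
    have a1 := i1 (fun x hx => hS x (mem_insert_of_mem hx)) hvN c
      (fun x hx => hc x (mem_insert_of_mem hx)) (by omega)
    refine a1.tail ⟨⟨v, hvN⟩, ⟨t, htN⟩, ?_, ?_, ?_, ?_, ?_⟩
    · intro h; exact hne (by simpa using h)
    · simp [hv]; omega
    · have : t ≠ v := fun h => hne h.symm
      simp only [ht, this, if_false]; exact h1t
    · rw [hD]
      simp only [hv, if_false, if_true]
      rw [hDv, cv]; omega
    · funext x
      have htv : t ≠ v := fun h => hne h.symm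
      have hcard : (insert v T).card = T.card + 1 := card_insert_of_notMem hv
      by_cases hxv : (x : ℕ) = v
      · have : x = ⟨v, hvN⟩ := Fin.ext hxv
        subst this
        simp
      · have hx1 : x ≠ ⟨v, hvN⟩ := fun h => hxv (by rw [h])
        by_cases hxt : (x : ℕ) = t
        · have : x = ⟨t, htN⟩ := Fin.ext hxt
          subst this
          simp only [hx1, if_false, mem_insert, htv, ht, or_self, if_true, hv, hcard, cv]
          omega
        · have hx2 : x ≠ ⟨t, htN⟩ := fun h => hxt (by rw [h])
          simp only [hx1, hx2, if_false, mem_insert, hxv, false_or, hxt]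

theorem Br.stackableTo {N : ℕ} {G : SimpleGraph (Fin N)} {D : ℕ → ℕ → ℕ}
    (hD : ∀ x y : Fin N, G.dist x y = D x y) (t : Fin N)
    (h : Br D ((range N).erase (t : ℕ)) t) : StackableTo G t := by
  have := h.sound hD (fun x hx => mem_range.1 (mem_of_mem_erase hx)) t.2 (fun _ => 1)
    (fun _ _ => rfl) le_rfl
  refine ⟨_, this, ?_⟩
  intro v hv
  have : (v : ℕ) ∈ (range N).erase (t : ℕ) := by
    rw [mem_erase, mem_range]
    exact ⟨fun h => hv (Fin.ext h), v.2⟩
  simp only [this, if_true]

theorem Br.singles {D : ℕ → ℕ → ℕ} {t : ℕ} (S : Finset ℕ) : t ∉ S → (∀ x ∈ S, D x t = 1) →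
    Br D S t := by
  induction S using Finset.induction_on with
  | empty => intro _ _; exact Br.empty t
  | @insert a S ha ih =>
    intro ht hS
    have h1 : Br D S t := ih (fun h => ht (mem_insert_of_mem h))
      (fun x hx => hS x (mem_insert_of_mem hx))
    have h2 : Br D (insert a ∅) t := Br.push (Br.empty a) (by simp) (by simp)
      (fun h => ht (h ▸ mem_insert_self _ _)) (by simpa using hS a (mem_insert_self _ _))
    refine (Br.union h2 h1 (by simpa using ha)).congr ?_
    ext x; simp

end Pool.Agent.X235.Cup
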