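import Pool.Agent.X235.Cup.Leaf

/-!
The graphs and their distances.
-/

namespace Pool.Agent.X235.Cup

open Finset

/-- adjacency of codes `a < b` -/
def rel (L g a b : ℕ) : Prop :=
  a < b ∧ ((a = 0 ∧ b ≤ g) ∨ (L < a ∧ b ≤ g) ∨ (g ≤ a ∧ b = a + 1))

/-- hub `0`, pendant leaves `1, ..., L`, a clique on `0` and `L + 1, ..., g`, and the path
`g, g + 1, ..., N - 1` -/
def graph (N L g : ℕ) : SimpleGraph (Fin N) where
  Adj x y := rel L g x y ∨ rel L g y x
  symm := ⟨fun _ _ h => h.symm⟩
  loopless := ⟨fun x h => by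
    rcases h with h | h <;> exact absurd h.1 (lt_irrefl _)⟩

theorem graph_mono {N L L' g g' : ℕ} (hLg : L < g) (hL : L' ≤ L) (hg : g ≤ g') :
    graph N L g ≤ graph N L' g' := by
  intro x y h
  have key : ∀ a b : ℕ, rel L g a b → rel L' g' a b := by
    intro a b h
    unfold rel at *
    omega
  exact h.imp (key _ _) (key _ _)

section
variable {N L g : ℕ}

theorem lev_adj (hLg : L < g) {x y : Fin N} (h : (graph N L g).Adj x y) :
    lev L g x ≤ lev L g y + 1 := by
  rcases h with h | h <;> unfold rel at h <;> unfold lev <;> split_ifs <;> omega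

theorem lev_walk (hLg : L < g) {x y : Fin N} (p : (graph N L g).Walk x y) :
    lev L g x ≤ lev L g y + p.length ∧ lev L g y ≤ lev L g x + p.length := by
  induction p with
  | nil => simp
  | cons h p ih =>
    have h1 := lev_adj hLg h
    have h2 := lev_adj hLg h.symm
    simp only [SimpleGraph.Walk.length_cons]
    omega

theorem adj_hub (x : ℕ) (hx : x < N) (h1 : 1 ≤ x) (h2 : x ≤ g) (h0 : 0 < N) :
    (graph N L g).Adj ⟨0, h0⟩ ⟨x, hx⟩ := Or.inl ⟨h1, Or.inl ⟨rfl, h2⟩⟩

theorem adj_clique (x y : ℕ) (hx : x < N) (hy : y < N) (h1 : L < x) (h2 : x < y) (h3 : y ≤ g) :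
    (graph N L g).Adj ⟨x, hx⟩ ⟨y, hy⟩ := Or.inl ⟨h2, Or.inr (Or.inl ⟨h1, h3⟩)⟩

theorem adj_path (x : ℕ) (hx : x + 1 < N) (h1 : g ≤ x) :
    (graph N L g).Adj ⟨x, by omega⟩ ⟨x + 1, hx⟩ :=
  Or.inl ⟨Nat.lt_succ_self x, Or.inr (Or.inr ⟨h1, rfl⟩)⟩

theorem connected (hg0 : 0 < g) (hgN : g < N) : (graph N L g).Connected := by
  have h0 : 0 < N := by omega
  have key : ∀ x : ℕ, ∀ hx : x < N, (graph N L g).Reachable ⟨0, h0⟩ ⟨x, hx⟩ := by
    intro x
    induction x with
    | zero => intro hx; exact SimpleGraph.Reachable.refl _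
    | succ x ih =>
      intro hx
      rcases Nat.lt_or_ge g (x + 1) with h | h
      · exact (ih (by omega)).trans (adj_path x hx (by omega)).reachable
      · exact (adj_hub (x + 1) hx (by omega) h h0).reachable
  haveI : Nonempty (Fin N) := ⟨⟨0, h0⟩⟩
  refine ⟨fun x y => ?_⟩
  exact (key x x.2).symm.trans (key y y.2)

theorem dist_path (hg0 : 0 < g) (i j : ℕ) : ∀ hj : g + i + j < N,
    (graph N L g).dist ⟨g + i, by omega⟩ ⟨g + i + j, hj⟩ ≤ j := by
  induction j with
  | zero => intro hj; simp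
  | succ j ih =>
    intro hj
    have h1 := ih (by omega)
    have h2 := (SimpleGraph.dist_eq_one_iff_adj.2
      (adj_path (L := L) (g := g) (g + i + j) (by omega) (by omega))).le
    have h3 := (connected (L := L) hg0 (show g < N by omega)).dist_triangle
      (u := (⟨g + i, by omega⟩ : Fin N)) (v := ⟨g + i + j, by omega⟩) (w := ⟨g + i + (j + 1), hj⟩)
    have e : (⟨g + i + j + 1, by omega⟩ : Fin N) = ⟨g + i + (j + 1), hj⟩ := rfl
    rw [e] at h2
    omega

/-- vertices up to `g` are within distance one or two -/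
theorem dist_low (hLg : L < g) (hgN : g < N) (x y : ℕ) (hx : x < N) (hy : y < N) (hxy : x < y)
    (hyg : y ≤ g) : (graph N L g).dist ⟨x, hx⟩ ⟨y, hy⟩ ≤ if x = 0 ∨ L < x then 1 else 2 := by
  have h0 : 0 < N := by omega
  rcases Nat.eq_zero_or_pos x with rfl | hx0
  · rw [SimpleGraph.dist_eq_one_iff_adj.2 (adj_hub y hy (by omega) hyg h0)]
    simp
  rcases Nat.lt_or_ge L x with h | h
  · rw [SimpleGraph.dist_eq_one_iff_adj.2 (adj_clique x y hx hy h hxy hyg)]
    simp [h]
  · have e1 := (SimpleGraph.dist_eq_one_iff_adj.2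
      (adj_hub (L := L) (g := g) x hx (by omega) (by omega) h0).symm).le
    have e2 := (SimpleGraph.dist_eq_one_iff_adj.2
      (adj_hub (L := L) (g := g) y hy (by omega) (by omega) h0)).le
    have h3 := (connected (L := L) (show 0 < g by omega) hgN).dist_triangle
      (u := (⟨x, hx⟩ : Fin N)) (v := ⟨0, h0⟩) (w := ⟨y, hy⟩)
    split_ifs <;> omega

/-- upper bound for the distance, `x < y` -/
theorem dist_le (hLg : L < g) (hgN : g < N) (x y : ℕ) (hx : x < N) (hy : y < N) (hxy : x < y) :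
    (graph N L g).dist ⟨x, hx⟩ ⟨y, hy⟩ ≤ D L g x y := by
  rcases Nat.lt_or_ge y g with hyg | hyg
  · refine (dist_low hLg hgN x y hx hy hxy (by omega)).trans ?_
    unfold D
    split_ifs <;> first | contradiction | omega
  · have hc := connected (L := L) (show 0 < g by omega) hgN
    obtain ⟨j, rfl⟩ := Nat.exists_eq_add_of_le hyg
    rcases Nat.lt_or_ge x g with hxg | hxg
    · have e1 := dist_low hLg hgN x g hx hgN hxg le_rfl
      have e2 := dist_path (N := N) (L := L) (g := g) (by omega) 0 j (by omega)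
      have h3 := hc.dist_triangle (u := (⟨x, hx⟩ : Fin N)) (v := ⟨g, hgN⟩) (w := ⟨g + j, hy⟩)
      have e3 : (graph N L g).dist ⟨g, hgN⟩ ⟨g + j, hy⟩ ≤ j := e2
      have e4 : (if x = 0 ∨ L < x then 1 else 2) + j ≤ D L g x (g + j) := by
        unfold D lev
        split_ifs <;> first | contradiction | omega
      omega
    · obtain ⟨i, rfl⟩ := Nat.exists_eq_add_of_le hxg
      have e2 := dist_path (N := N) (L := L) (g := g) (by omega) i (j - i) (by omega)
      have e3 : (⟨g + i + (j - i), by omega⟩ : Fin N) = ⟨g + j, hy⟩ := by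
        apply Fin.ext; simp only; omega
      rw [e3] at e2
      refine e2.trans ?_
      unfold D lev
      split_ifs <;> first | contradiction | omega

theorem le_dist (hLg : L < g) (x y : ℕ) (hx : x < N) (hy : y < N) (hxy : x < y) (hgN : g < N) :
    D L g x y ≤ (graph N L g).dist ⟨x, hx⟩ ⟨y, hy⟩ := by
  have hc := connected (L := L) (show 0 < g by omega) hgN
  obtain ⟨p, hp⟩ := (hc.preconnected (⟨x, hx⟩ : Fin N) ⟨y, hy⟩).exists_walk_length_eq_dist
  have h1 := lev_walk hLg p
  simp only at h1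
  rw [hp] at h1
  have hne : (⟨x, hx⟩ : Fin N) ≠ ⟨y, hy⟩ := by
    intro h; simp at h; omega
  have h2 : 0 < (graph N L g).dist ⟨x, hx⟩ ⟨y, hy⟩ := hc.pos_dist_of_ne hne
  have h3 : (graph N L g).dist ⟨x, hx⟩ ⟨y, hy⟩ = 1 → rel L g x y := by
    intro h
    rw [SimpleGraph.dist_eq_one_iff_adj] at h
    rcases h with h | h
    · exact h
    · exact absurd h.1 (by simp only; omega)
  unfold rel at h3
  unfold D
  split_ifs with a b c
  · omega
  · omega
  · omega
  · omega

theorem D_symm (x y : ℕ) : D L g x y = D L g y x := by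
  unfold D
  split_ifs <;> omega

theorem dist_eq (hLg : L < g) (hgN : g < N) (x y : Fin N) :
    (graph N L g).dist x y = D L g x y := by
  rcases lt_trichotomy (x : ℕ) (y : ℕ) with h | h | h
  · exact le_antisymm (dist_le hLg hgN x y x.2 y.2 h) (le_dist hLg x y x.2 y.2 h hgN)
  · have : x = y := Fin.ext h
    subst this
    simp [D]
  · rw [SimpleGraph.dist_comm, D_symm]
    exact le_antisymm (dist_le hLg hgN y x y.2 x.2 h) (le_dist hLg y x y.2 x.2 h hgN)

theorem stackable (hL : 4 ≤ L) (hev : (g - L) % 2 = 0) (hN : g + 6 * L + 10 < N)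
    (hg : L + 4 < g) (hgN : N ≤ 2 * g) : Stackable (graph N L g) := fun t =>
  Br.stackableTo (dist_eq (by omega) (by omega)) t (all_targets hL hev hN hg hgN t t.2)

end

end Pool.Agent.X235.Cup
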