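import Pool.Agent.X235.Cup.Line

/-!
The target is a pendant leaf.
-/

namespace Pool.Agent.X235.Cup

open Finset

section
variable {L g : ℕ}

/-- pairs of clique vertices jump to a leaf -/
theorem pairs {x : ℕ} (hx : 1 ≤ x) (hxL : x ≤ L) (n : ℕ) : L + 2 * n < g →
    Br (D L g) (Ioc L (L + 2 * n)) x := by
  induction n with
  | zero => intro _; simpa using Br.empty x
  | succ n ih =>
    intro hn
    have e1 := ih (by omega)
    have e2 : Br (D L g) (insert (L + 2 * n + 1) ∅) (L + 2 * n + 2) := by
      refine Br.push (Br.empty _) (by simp) (by simp) (by omega) ?_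
      unfold D lev
      simp only [card_empty]
      split_ifs <;> first | contradiction | omega
    have e3 : Br (D L g) (insert (L + 2 * n + 2) (insert (L + 2 * n + 1) ∅)) x := by
      refine Br.push e2 (by simp) (by simp; omega) (by omega) ?_
      rw [card_insert_of_notMem (by simp), card_empty]
      unfold D lev
      split_ifs <;> first | contradiction | omega | (simp only [false_or] at *; omega)
    refine (Br.union e1 e3 ?_).congr ?_
    · rw [Finset.disjoint_left]; intro y; simp; omega
    · ext y; simp; omega

set_option maxHeartbeats 4000000 in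
/-- the hub collects the other leaves, jumps to the tail, jumps again and comes back -/
theorem case4a {N x : ℕ} (hL : 4 ≤ L) (hx : 1 ≤ x) (hxL : x ≤ L) (hg : L + 4 < g)
    (hN : g + 6 * L + 10 < N) :
    Br (D L g) ((Icc 0 L).erase x ∪ Icc (g + L - 3) (g + L - 1) ∪
      Icc (g + 2 * L + 2) (g + 3 * L + 2)) x := by
  have hLg : L < g := by omega
  have e1 : Br (D L g) ((Icc 1 L).erase x) 0 := by
    refine Br.singles _ (by simp) ?_
    intro y hy
    rw [mem_erase, mem_Icc] at hy
    unfold D lev
    split_ifs <;> first | contradiction | omega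
  have e2 : Br (D L g) (insert 0 ((Icc 1 L).erase x)) (g + L - 1) := by
    refine Br.push e1 (by simp) (by simp; omega) (by omega) ?_
    rw [card_erase_of_mem (by simp; omega)]
    simp only [Nat.card_Icc]
    unfold D lev
    split_ifs <;> first | contradiction | omega
  have e0 := up hLg (show L < g + L - 3 by omega) (show g + L - 3 ≤ g + L - 1 by omega)
  have e3 : Br (D L g) (insert (g + L - 1) (insert 0 ((Icc 1 L).erase x) ∪
      Ico (g + L - 3) (g + L - 1))) (g + 2 * L + 2) := by
    refine Br.push (Br.union e2 e0 ?_) (by simp; omega) (by simp; omega) (by omega) ?_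
    · rw [Finset.disjoint_left]; intro y; simp; omega
    · rw [card_union_of_disjoint (by rw [Finset.disjoint_left]; intro y; simp; omega),
        card_insert_of_notMem (by simp), card_erase_of_mem (by simp; omega)]
      simp only [Nat.card_Icc, Nat.card_Ico]
      unfold D lev
      split_ifs <;> first | contradiction | omega
  have e4 := down hLg (show L < g + 2 * L + 2 by omega)
    (show g + 2 * L + 2 ≤ g + 2 * L + 2 + L by omega)
  have e5 : Br (D L g) (insert (g + 2 * L + 2)
      (insert (g + L - 1) (insert 0 ((Icc 1 L).erase x) ∪ Ico (g + L - 3) (g + L - 1)) ∪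
        Ioc (g + 2 * L + 2) (g + 2 * L + 2 + L))) x := by
    refine Br.push (Br.union e3 e4 ?_) ?_ ?_ (by omega) ?_
    · rw [Finset.disjoint_left]; intro y; simp; omega
    · simp; omega
    · simp; omega
    · rw [card_union_of_disjoint (by rw [Finset.disjoint_left]; intro y; simp; omega),
        card_insert_of_notMem (by simp; omega),
        card_union_of_disjoint (by rw [Finset.disjoint_left]; intro y; simp; omega),
        card_insert_of_notMem (by simp), card_erase_of_mem (by simp; omega)]
      simp only [Nat.card_Icc, Nat.card_Ioc, Nat.card_Ico]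
      unfold D lev
      split_ifs <;> first | contradiction | omega
  refine e5.congr ?_
  ext y; simp; omega

set_option maxHeartbeats 4000000 in
/-- the target is a pendant leaf `x` -/
theorem case4 {N x : ℕ} (hL : 4 ≤ L) (hx : 1 ≤ x) (hxL : x ≤ L) (hg : L + 4 < g)
    (hev : (g - L) % 2 = 0) (hN : g + 6 * L + 10 < N) :
    Br (D L g) ((range N).erase x) x := by
  have hLg : L < g := by omega
  have e1 := case4a (N := N) hL hx hxL hg hN
  have e2 : Br (D L g) (Icc (g + L) (g + 2 * L + 1)) x := by
    refine seg hLg (y := g + L) (by omega) (by omega) (by omega) (by omega) ?_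
    unfold D lev
    split_ifs <;> first | contradiction | omega
  have e3 : Br (D L g) (Icc (g + 3 * L + 3) (N - 1)) x := by
    refine seg hLg (y := g + (N - g - 3 * L - 3) - 2) (by omega) (by omega)
      (by omega) (by omega) ?_
    unfold D lev
    split_ifs <;> first | contradiction | omega
  have e4 : Br (D L g) (Icc (g - 1) (g + L - 4)) x := by
    refine seg hLg (y := g + L - 4) (by omega) (by omega) (by omega) (by omega) ?_
    unfold D lev
    split_ifs <;> first | contradiction | omega
  have e5 := pairs (g := g) hx hxL ((g - 2 - L) / 2) (by omega)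
  have e6 : L + 2 * ((g - 2 - L) / 2) = g - 2 := by omega
  rw [e6] at e5
  have f1 := Br.union e2 e3 (by rw [Finset.disjoint_left]; intro y; simp; omega)
  have f2 := Br.union e4 e5 (by rw [Finset.disjoint_left]; intro y; simp; omega)
  have f3 := Br.union f1 f2 (by rw [Finset.disjoint_left]; intro y; simp; omega)
  refine (Br.union f3 e1 ?_).congr ?_
  · rw [Finset.disjoint_left]; intro y; simp; omega
  · ext y; simp; omega

/-- all cups can be brought to every vertex -/
theorem all_targets {N : ℕ} (hL : 4 ≤ L) (hev : (g - L) % 2 = 0) (hN : g + 6 * L + 10 < N)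
    (hg : L + 4 < g) (hgN : N ≤ 2 * g) (t : ℕ) (ht : t < N) :
    Br (D L g) ((range N).erase t) t := by
  rcases Nat.eq_zero_or_pos t with rfl | h0
  · exact case0 (by omega) (by omega)
  rcases Nat.lt_or_ge L t with h1 | h1
  · rcases Nat.lt_or_ge t g with h2 | h2
    · exact case3 hL h1 h2 hg hN
    · obtain ⟨i, rfl⟩ := Nat.exists_eq_add_of_le h2
      rcases Nat.lt_or_ge i L with h3 | h3
      · exact case2 h3 hg hN
      · exact case1 (by omega) h3 (by omega) ht
  · exact case4 hL h0 h1 hg hev hN

end

end Pool.Agent.X235.Cup
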