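import Pool.Agent.X235.Cup.Base

/-!
The distance function of the graphs and the positive half: all cups can be brought to every vertex.
-/

namespace Pool.Agent.X235.Cup

open Finset

/-- levels -/
def lev (L g x : ℕ) : ℕ := if x = 0 then 1 else if x ≤ L then 0 else if x < g then 1 else x - g + 2

/-- distances -/
def D (L g x y : ℕ) : ℕ :=
  if x = y then 0
  else if x < g ∧ y < g then (if x = 0 ∨ y = 0 ∨ (L < x ∧ L < y) then 1 else 2)
  else (lev L g x - lev L g y) + (lev L g y - lev L g x)

section
variable {L g : ℕ}

theorem D_line_up (hLg : L < g) {x y : ℕ} (hx : L < x) (hxy : x < y) :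
    1 ≤ D L g x y ∧ D L g x y ≤ y - x := by
  unfold D lev
  split_ifs <;> first | contradiction | omega

theorem D_line_down (hLg : L < g) {x y : ℕ} (hx : L < x) (hxy : x < y) :
    1 ≤ D L g y x ∧ D L g y x ≤ y - x := by
  unfold D lev
  split_ifs <;> first | contradiction | omega

theorem line (hLg : L < g) (n : ℕ) : ∀ a, L < a →
    Br (D L g) (Ico a (a + n)) (a + n) ∧ Br (D L g) (Ioc a (a + n)) a := by
  induction n using Nat.strong_induction_on with
  | _ n ih =>
  intro a ha
  rcases Nat.eq_zero_or_pos n with rfl | hn
  · simp only [add_zero, Ico_self, Ioc_self]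
    exact ⟨Br.empty _, Br.empty _⟩
  constructor
  · obtain ⟨h1, h2⟩ := D_line_up hLg ha (show a < a + n by omega)
    set d := D L g a (a + n) with hd
    have e1 := (ih (d - 1) (by omega) a ha).2
    have e2 : Br (D L g) (insert a (Ioc a (a + (d - 1)))) (a + n) := by
      refine Br.push e1 (by simp) (by simp; omega) (by omega) ?_
      rw [← hd]; simp; omega
    have e3 := (ih (n - d) (by omega) (a + d) (by omega)).1
    have e4 : a + d + (n - d) = a + n := by omega
    rw [e4] at e3
    refine (Br.union e2 e3 ?_).congr ?_
    · rw [Finset.disjoint_left]; intro x; simp; omega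
    · ext x; simp; omega
  · obtain ⟨h1, h2⟩ := D_line_down hLg ha (show a < a + n by omega)
    set d := D L g (a + n) a with hd
    have e1 := (ih (d - 1) (by omega) (a + n - d + 1) (by omega)).1
    have e5 : a + n - d + 1 + (d - 1) = a + n := by omega
    rw [e5] at e1
    have e2 : Br (D L g) (insert (a + n) (Ico (a + n - d + 1) (a + n))) a := by
      refine Br.push e1 (by simp) (by simp; omega) (by omega) ?_
      rw [← hd]; simp; omega
    have e3 := (ih (n - d) (by omega) a ha).2
    refine (Br.union e2 e3 ?_).congr ?_
    · rw [Finset.disjoint_left]; intro x; simp; omega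
    · ext x; simp; omega

theorem up (hLg : L < g) {a b : ℕ} (ha : L < a) (hab : a ≤ b) : Br (D L g) (Ico a b) b := by
  have := (line hLg (b - a) a ha).1
  rwa [show a + (b - a) = b by omega] at this

theorem down (hLg : L < g) {a b : ℕ} (ha : L < a) (hab : a ≤ b) : Br (D L g) (Ioc a b) a := by
  have := (line hLg (b - a) a ha).2
  rwa [show a + (b - a) = b by omega] at this

/-- a segment jumps from its vertex `y` to `t` -/
theorem seg (hLg : L < g) {a y b t : ℕ} (ha : L < a) (hay : a ≤ y) (hyb : y ≤ b)
    (ht : t < a ∨ b < t) (hD : D L g y t = b + 1 - a) : Br (D L g) (Icc a b) t := by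
  have e1 := up hLg ha hay
  have e2 := down hLg (show L < y by omega) hyb
  have e3 := Br.union e1 e2 (by rw [Finset.disjoint_left]; intro x; simp; omega)
  have e4 : (Ico a y ∪ Ioc y b) = (Icc a b).erase y := by ext x; simp; omega
  rw [e4] at e3
  have e5 : Br (D L g) (insert y ((Icc a b).erase y)) t := by
    refine Br.push e3 (by simp) ?_ (by omega) ?_
    · simp; omega
    · rw [hD, card_erase_of_mem (by simp; omega)]; simp; omega
  refine e5.congr ?_
  ext x; simp; omega

/-- leaves and clique vertices `1, ..., i` go to the hub, and then with the hub to `g + i` -/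
theorem hub (hLg : L < g) {i : ℕ} (hi : i < g) : Br (D L g) (Icc 0 i) (g + i) := by
  have e1 : Br (D L g) (Icc 1 i) 0 := by
    refine Br.singles _ (by simp) ?_
    intro x hx
    rw [mem_Icc] at hx
    unfold D lev
    split_ifs <;> first | contradiction | omega
  have e2 : Br (D L g) (insert 0 (Icc 1 i)) (g + i) := by
    refine Br.push e1 (by simp) (by simp; omega) (by omega) ?_
    unfold D lev
    simp
    split_ifs <;> first | contradiction | omega
  refine e2.congr ?_
  ext x; simp; omega

/-- the target is the hub -/
theorem case0 (hLg : L < g) {N : ℕ} (hN : g < N) : Br (D L g) ((range N).erase 0) 0 := by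
  have e1 : Br (D L g) (Icc 1 (g - 1)) 0 := by
    refine Br.singles _ (by simp) ?_
    intro x hx
    rw [mem_Icc] at hx
    unfold D lev
    split_ifs <;> first | contradiction | omega
  have e2 : Br (D L g) (Icc g (N - 1)) 0 := by
    refine seg hLg (y := N - 1) hLg (by omega) le_rfl (by omega) ?_
    unfold D lev
    split_ifs <;> first | contradiction | omega
  refine (Br.union e1 e2 ?_).congr ?_
  · rw [Finset.disjoint_left]; intro x; simp; omega
  · ext x; simp; omega

/-- the target is `g + i` with `i ≥ L` -/
theorem case1 (hLg : L < g) {N i : ℕ} (hi : L ≤ i) (hig : i < g) (hN : g + i < N) :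
    Br (D L g) ((range N).erase (g + i)) (g + i) := by
  have e1 := hub hLg hig
  have e2 := up hLg (show L < i + 1 by omega) (show i + 1 ≤ g + i by omega)
  have e3 := down hLg (show L < g + i by omega) (show g + i ≤ N - 1 by omega)
  refine (Br.union (Br.union e1 e2 ?_) e3 ?_).congr ?_
  · rw [Finset.disjoint_left]; intro x; simp; omega
  · rw [Finset.disjoint_left]; intro x; simp; omega
  · ext x; simp; omega

set_option maxHeartbeats 4000000 in
/-- the target is `g + i` with `i < L` -/
theorem case2 {N i : ℕ} (hi : i < L) (hg : L + 4 < g) (hN : g + 6 * L + 10 < N) :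
    Br (D L g) ((range N).erase (g + i)) (g + i) := by
  have hLg : L < g := by omega
  have e1 := hub hLg hLg
  have e2 : Br (D L g) (insert (g + L) (Icc 0 L)) (g + 2 * L + 2) := by
    refine Br.push e1 (by simp; omega) (by simp; omega) (by omega) ?_
    unfold D lev
    simp
    split_ifs <;> first | contradiction | omega
  have e3 := down hLg (show L < g + 2 * L + 2 by omega)
    (show g + 2 * L + 2 ≤ g + 2 * L + 2 + (L - 1 - i) by omega)
  have e4 : Br (D L g) (insert (g + 2 * L + 2)
      (insert (g + L) (Icc 0 L) ∪ Ioc (g + 2 * L + 2) (g + 2 * L + 2 + (L - 1 - i)))) (g + i) := by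
    refine Br.push (Br.union e2 e3 ?_) ?_ ?_ (by omega) ?_
    · rw [Finset.disjoint_left]; intro x; simp; omega
    · simp; omega
    · simp; omega
    · rw [card_union_of_disjoint (by rw [Finset.disjoint_left]; intro x; simp; omega),
        card_insert_of_notMem (by simp; omega)]
      simp only [Nat.card_Icc, Nat.card_Ioc]
      unfold D lev
      split_ifs <;> first | contradiction | omega
  have e5 : Br (D L g) (Icc (g + L + 1) (g + 2 * L + 1)) (g + i) := by
    refine seg hLg (y := g + L + 1 + i) (by omega) (by omega) (by omega) (by omega) ?_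
    unfold D lev
    split_ifs <;> first | contradiction | omega
  have e6 : Br (D L g) (Icc (g + 2 * L + 2 + (L - 1 - i) + 1) (N - 1)) (g + i) := by
    refine seg hLg (y := g + i + (N - 1 - (g + 2 * L + 2 + (L - 1 - i)))) (by omega) (by omega)
      (by omega) (by omega) ?_
    unfold D lev
    split_ifs <;> first | contradiction | omega
  have e7 := up hLg (show L < L + 1 by omega) (show L + 1 ≤ g + i by omega)
  have e8 := down hLg (show L < g + i by omega) (show g + i ≤ g + L - 1 by omega)
  have f1 := Br.union e5 e6 (by rw [Finset.disjoint_left]; intro x; simp; omega)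
  have f2 := Br.union e7 e8 (by rw [Finset.disjoint_left]; intro x; simp; omega)
  have f3 := Br.union f1 f2 (by rw [Finset.disjoint_left]; intro x; simp; omega)
  refine (Br.union f3 e4 ?_).congr ?_
  · rw [Finset.disjoint_left]; intro x; simp; omega
  · ext x; simp; omega

set_option maxHeartbeats 4000000 in
/-- the target is a clique vertex `t`, neither the hub nor `g` -/
theorem case3 {N t : ℕ} (hL : 4 ≤ L) (ht : L < t) (htg : t < g) (hg : L + 4 < g)
    (hN : g + 6 * L + 10 < N) :
    Br (D L g) ((range N).erase t) t := by
  have hLg : L < g := by omega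
  have e1 := hub hLg hLg
  have e0 := up hLg (show L < g + L - 1 by omega) (show g + L - 1 ≤ g + L by omega)
  have e2 : Br (D L g) (insert (g + L) (Icc 0 L ∪ Ico (g + L - 1) (g + L))) (g + 2 * L + 3) := by
    refine Br.push (Br.union e1 e0 ?_) (by simp; omega) (by simp; omega) (by omega) ?_
    · rw [Finset.disjoint_left]; intro x; simp; omega
    · rw [card_union_of_disjoint (by rw [Finset.disjoint_left]; intro x; simp; omega)]
      simp only [Nat.card_Icc, Nat.card_Ico]
      unfold D lev
      split_ifs <;> first | contradiction | omega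
  have e3 := down hLg (show L < g + 2 * L + 3 by omega)
    (show g + 2 * L + 3 ≤ g + 2 * L + 3 + L by omega)
  have e4 : Br (D L g) (insert (g + 2 * L + 3)
      (insert (g + L) (Icc 0 L ∪ Ico (g + L - 1) (g + L)) ∪
        Ioc (g + 2 * L + 3) (g + 2 * L + 3 + L))) t := by
    refine Br.push (Br.union e2 e3 ?_) ?_ ?_ (by omega) ?_
    · rw [Finset.disjoint_left]; intro x; simp; omega
    · simp; omega
    · simp; omega
    · rw [card_union_of_disjoint (by rw [Finset.disjoint_left]; intro x; simp; omega),
        card_insert_of_notMem (by simp; omega),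
        card_union_of_disjoint (by rw [Finset.disjoint_left]; intro x; simp; omega)]
      simp only [Nat.card_Icc, Nat.card_Ioc, Nat.card_Ico]
      unfold D lev
      split_ifs <;> first | contradiction | omega
  have e5 : Br (D L g) (Icc (g + L + 1) (g + 2 * L + 2)) t := by
    refine seg hLg (y := g + L + 1) (by omega) (by omega) (by omega) (by omega) ?_
    unfold D lev
    split_ifs <;> first | contradiction | omega
  have e6 : Br (D L g) (Icc (g + 2 * L + 3 + L + 1) (N - 1)) t := by
    refine seg hLg (y := g + (N - 1 - (g + 2 * L + 3 + L)) - 1) (by omega) (by omega)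
      (by omega) (by omega) ?_
    unfold D lev
    split_ifs <;> first | contradiction | omega
  have e7 := up hLg (show L < L + 1 by omega) (show L + 1 ≤ t by omega)
  have e8 := down hLg ht (show t ≤ g + L - 2 by omega)
  have f1 := Br.union e5 e6 (by rw [Finset.disjoint_left]; intro x; simp; omega)
  have f2 := Br.union e7 e8 (by rw [Finset.disjoint_left]; intro x; simp; omega)
  have f3 := Br.union f1 f2 (by rw [Finset.disjoint_left]; intro x; simp; omega)
  refine (Br.union f3 e4 ?_).congr ?_
  · rw [Finset.disjoint_left]; intro x; simp; omega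
  · ext x; simp; omega

end

end Pool.Agent.X235.Cup
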