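import Pool.Agent.X235.Cup.Graph

/-!
Many pendant leaves and a short tail: not stackable.
-/

namespace Pool.Agent.X235.Cup

open Finset

/-- the potential of one vertex -/
def pot (L g cap v n : ℕ) : ℕ :=
  if v = 0 then (if n = 0 then 0 else cap - n + 1)
  else if v ≤ L then (if n = 0 ∨ n = 2 then 1 else 0)
  else if v ≤ g then 0
  else (if n = 0 then 0 else cap - n)

section
variable {N L g : ℕ}

/-- the potential -/
def Pot (L g cap : ℕ) (c : Fin N → ℕ) : ℕ := ∑ v : Fin N, pot L g cap v (c v)

theorem sum_two {f f' : Fin N → ℕ} {x y : Fin N} (hxy : x ≠ y)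
    (h : ∀ v, v ≠ x → v ≠ y → f' v = f v) (h2 : f' x + f' y ≤ f x + f y) :
    ∑ v, f' v ≤ ∑ v, f v := by
  have hy : y ∈ univ.erase x := mem_erase.2 ⟨hxy.symm, mem_univ _⟩
  rw [← add_sum_erase univ f' (mem_univ x), ← add_sum_erase univ f (mem_univ x),
    ← add_sum_erase (univ.erase x) f' hy, ← add_sum_erase (univ.erase x) f hy]
  have : ∑ v ∈ (univ.erase x).erase y, f' v = ∑ v ∈ (univ.erase x).erase y, f v := by
    refine sum_congr rfl fun v hv => ?_
    rw [mem_erase, mem_erase] at hv
    exact h v hv.2.1 hv.1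
  omega

theorem pot_move (hLg : L < g) {cap x y s n : ℕ} (hx : x < N) (hy : y < N) (hxy : x ≠ y)
    (hs : D L g x y = s) (hs1 : 1 ≤ s) (hn : 1 ≤ n)
    (hcap : y = 0 ∨ g < y → n + s ≤ cap) :
    pot L g cap x 0 + pot L g cap y (n + s) ≤ pot L g cap x s + pot L g cap y n := by
  have f1 : x = 0 → 1 ≤ y → y ≤ L → s = 1 := by
    rw [← hs]; unfold D lev; intros; split_ifs <;> first | contradiction | omega
  have f2 : g < x → 1 ≤ y → y ≤ L → 3 ≤ s := by
    rw [← hs]; unfold D lev; intros; split_ifs <;> first | contradiction | omega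
  have f3 : L < x → x ≤ g → 1 ≤ y → y ≤ L → s = 2 := by
    rw [← hs]; unfold D lev; intros; split_ifs <;> first | contradiction | omega
  have f4 : 1 ≤ x → x ≤ L → 1 ≤ y → 2 ≤ s := by
    rw [← hs]; unfold D lev; intros; split_ifs <;> first | contradiction | omega
  have f5 : 1 ≤ x → x ≤ L → g < y → 3 ≤ s := by
    rw [← hs]; unfold D lev; intros; split_ifs <;> first | contradiction | omega
  have f6 : 1 ≤ x → x ≤ L → y ≤ g → s ≤ 2 := by
    rw [← hs]; unfold D lev; intros; split_ifs <;> first | contradiction | omega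
  clear hs
  unfold pot
  rcases Nat.eq_zero_or_pos x with hx0 | hx0
  · have hy0 : y ≠ 0 := by omega
    simp only [hx0, if_true, hy0, if_false, show s ≠ 0 by omega, show n + s ≠ 0 by omega,
      show n ≠ 0 by omega, false_or]
    split_ifs <;> omega
  have hx0' : x ≠ 0 := by omega
  rcases Nat.lt_or_ge L x with hxL | hxL
  · have hxL' : ¬ x ≤ L := by omega
    simp only [hx0', hxL', if_false, show s ≠ 0 by omega, show n + s ≠ 0 by omega,
      show n ≠ 0 by omega, false_or]
    split_ifs <;> omega
  · simp only [hx0', hxL, if_false, if_true, show s ≠ 0 by omega, show n + s ≠ 0 by omega,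
      show n ≠ 0 by omega, false_or, true_or]
    split_ifs <;> omega

theorem Pot_move (hLg : L < g) (hgN : g < N) {cap : ℕ} {c c' : Fin N → ℕ}
    (hm : Move (graph N L g) c c') (hcap : ∀ v : Fin N, ((v : ℕ) = 0 ∨ g < v) → c' v ≤ cap) :
    Pot L g cap c' ≤ Pot L g cap c := by
  obtain ⟨x, y, hxy, hx, hy, hd, rfl⟩ := hm
  rw [dist_eq hLg hgN] at hd
  unfold Pot
  refine sum_two hxy ?_ ?_
  · intro v h1 h2
    simp only [h1, h2, if_false]
  · have h3 := hcap y
    simp only [hxy.symm, if_false, if_true] at h3 ⊢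
    exact pot_move hLg x.2 y.2 (fun h => hxy (Fin.ext h)) hd hx hy h3

theorem D_le (hLg : L < g) {x y : ℕ} (hx : x < N) (hy : y < N) (hgN : g < N) :
    D L g x y ≤ N + 1 - g := by
  unfold D lev
  split_ifs <;> first | contradiction | omega

/-- a vertex with too many cups keeps them -/
theorem stuck (hLg : L < g) (hgN : g < N) {c c' : Fin N → ℕ}
    (hm : Move (graph N L g) c c') (v : Fin N) (hv : N + 1 - g < c v) : N + 1 - g < c' v := by
  obtain ⟨x, y, hxy, hx, hy, hd, rfl⟩ := hm
  rw [dist_eq hLg hgN] at hd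
  have h1 := D_le (N := N) hLg x.2 y.2 hgN
  by_cases h2 : v = x
  · subst h2; omega
  · by_cases h3 : v = y
    · subst h3; simp only [h2, if_false, if_true]; omega
    · simp only [h2, h3, if_false]; exact hv

theorem not_stackableTo (hLg : L < g) (hgN : g < N) (t : Fin N) (ht : L < (t : ℕ))
    (htg : (t : ℕ) ≤ g) (hL : (N - g) * (N - g) + 1 < L) : ¬ StackableTo (graph N L g) t := by
  rintro ⟨cf, hc, hcf⟩
  have key : ∀ c, Relation.ReflTransGen (Move (graph N L g)) c cf →
      (∀ v, v ≠ t → c v ≤ N + 1 - g) ∧ Pot L g (N + 1 - g) cf ≤ Pot L g (N + 1 - g) c := by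
    intro c h
    induction h using Relation.ReflTransGen.head_induction_on with
    | refl => exact ⟨fun v hv => by rw [hcf v hv]; omega, le_rfl⟩
    | @head c c' hm _ ih =>
      refine ⟨fun v hv => ?_, ih.2.trans (Pot_move hLg hgN hm ?_)⟩
      · by_contra h
        have := stuck hLg hgN hm v (by omega)
        have := ih.1 v hv
        omega
      · intro v hv
        refine ih.1 v fun h => ?_
        rw [h] at hv
        omega
  have h1 := (key _ hc).2
  have h2 : L ≤ Pot L g (N + 1 - g) cf := by
    unfold Pot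
    have e1 : ∑ v : Fin N, (if 1 ≤ (v : ℕ) ∧ (v : ℕ) ≤ L then 1 else 0) ≤
        ∑ v : Fin N, pot L g (N + 1 - g) v (cf v) := by
      refine sum_le_sum fun v _ => ?_
      split_ifs with h
      · have hv : v ≠ t := fun e => by rw [e] at h; omega
        rw [hcf v hv]
        unfold pot
        rw [if_neg (by omega), if_pos h.2]
        simp
      · exact Nat.zero_le _
    refine le_trans ?_ e1
    rw [Fin.sum_univ_eq_sum_range (fun v : ℕ => if 1 ≤ v ∧ v ≤ L then 1 else 0) N,
      ← card_filter]
    have e2 : (range N).filter (fun v => 1 ≤ v ∧ v ≤ L) = Icc 1 L := by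
      ext v; simp; omega
    rw [e2]; simp
  have h3 : Pot L g (N + 1 - g) (fun _ : Fin N => 1) ≤ (N - g) * (N - g) + 1 := by
    unfold Pot
    have e1 : ∑ v : Fin N, pot L g (N + 1 - g) v 1 ≤
        ∑ v : Fin N, (if (v : ℕ) = 0 then N + 1 - g else if g < (v : ℕ) then N - g else 0) := by
      refine sum_le_sum fun v _ => ?_
      unfold pot
      simp only [one_ne_zero, if_false, false_or, OfNat.one_ne_ofNat]
      split_ifs <;> omega
    refine le_trans e1 ?_
    rw [Fin.sum_univ_eq_sum_range
      (fun v : ℕ => if v = 0 then N + 1 - g else if g < v then N - g else 0) N]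
    obtain ⟨M, rfl⟩ := Nat.exists_eq_add_of_lt hgN
    rw [show g + M + 1 = (g + 1) + M by omega, sum_range_add, sum_range_succ']
    have e2 : ∑ k ∈ range g, (if k + 1 = 0 then g + 1 + M + 1 - g else
        if g < k + 1 then g + 1 + M - g else 0) = 0 := by
      refine sum_eq_zero fun k hk => ?_
      rw [mem_range] at hk
      rw [if_neg (by omega), if_neg (by omega)]
    have e3 : ∑ k ∈ range M, (if g + 1 + k = 0 then g + 1 + M + 1 - g else
        if g < g + 1 + k then g + 1 + M - g else 0) = M * (M + 1) := by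
      rw [sum_congr rfl (g := fun _ => M + 1), sum_const, card_range, smul_eq_mul]
      intro k _
      rw [if_neg (by omega), if_pos (by omega)]
      omega
    rw [e2, e3, if_pos rfl, show g + 1 + M + 1 - g = M + 2 by omega,
      show g + 1 + M - g = M + 1 by omega]
    nlinarith
  omega

end

end Pool.Agent.X235.Cup
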